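import Mathlib
import Pool.Agent.R593.Rnd.Polar

/-!
# Random reals destroy the strong polarized relation

After adding `lam` random reals the relation `(κ, ω) → (κ, ω)` fails for every uncountable cardinal
`κ ≤ lam`; in particular it fails for `κ = 𝔡` if `lam > 𝔡`, whether or not it holds in the ground
model (and `𝔡` is not changed by adding random reals). So the relation at `𝔡` is never preserved.

The sentences of the forcing language are those of `Pool.Agent.TH773.PSet.Defs` and
`Pool.Agent.R593.Rnd.Defs`; `Random I` is the measure algebra of the product of the fair coin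
measures on `2 ^ (I × ω)`.

Proof. The colouring is given by the first `κ` random reals: the pair `(k, n)` has the first colour
if `r_k (n) = 1`. Let `B` be an infinite subset of `ω` of the extension. It depends on countably
many of the random reals only, and a subset `A` of `κ` of size `κ` contains an index `k` of another
one. The random real `r_k` is independent of `B` and so it is almost surely not constant on `B`.
-/

set_option autoImplicit false

namespace Pool.Agent.Results.MP_95a70f_lc.RandomRealsDestroy

open Cardinal Pool.Agent.TH773.PSet Pool.Agent.R593.Rnd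

theorem aleph0_lt_dNum : ℵ₀ < dNum := by
  obtain ⟨D, hD, hDc⟩ := dNum_spec
  rw [← hDc]
  by_contra hcon
  push Not at hcon
  have hct : D.Countable := mk_le_aleph0_iff.1 hcon
  have hne : D.Nonempty := by
    obtain ⟨g, hg, _⟩ := hD fun _ => 0
    exact ⟨g, hg⟩
  obtain ⟨e, he⟩ := hct.exists_eq_range hne
  obtain ⟨g, hg, N, hN⟩ := hD fun n => (∑ k ∈ Finset.range (n + 1), e k n) + 1
  rw [he] at hg
  obtain ⟨k, rfl⟩ := hg
  have h1 := hN (max N k) (le_max_left _ _)
  have h2 : e k (max N k) ≤ ∑ j ∈ Finset.range (max N k + 1), e j (max N k) :=
    Finset.single_le_sum (f := fun j => e j (max N k)) (fun _ _ => Nat.zero_le _)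
      (Finset.mem_range.2 (Nat.lt_succ_of_le (le_max_right _ _)))
  omega

/-- (1) For every uncountable cardinal `κ = #K ≤ lam = #I`, every condition of the random forcing
`𝔹(I)` forces that the strong polarized relation `(κ, ω) → (κ, ω)` fails. (2) If `lam = #I > 𝔡`,
then every condition of `𝔹(I)` forces that all uncountable cardinals of the ground model are
cardinals, that the dominating number is the one of the ground model, and that
the relation `(𝔡, ω) → (𝔡, ω)` fails. (3) Over the trivial forcing the two sentences have their
usual meaning in the ground model. -/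
theorem result :
    (∀ I K : Type, ℵ₀ < #K → #K ≤ #I →
      Nonempty (Random I) ∧ ∀ p : Random I, p ∈ fnot (Polarized (Random I) K)) ∧
    (∀ I : Type, dNum < #I → ∀ p : Random I,
      p ∈ CardinalsPreserved.{0, 0} (Random I) ∧ p ∈ DominatingIs (Random I) dNum ∧
        p ∈ fnot (Polarized (Random I) dNum.out)) ∧
    (∀ (K : Type) (p : Unit), p ∈ Polarized Unit K ↔ PolarizedRel K) ∧
    (∀ (κ : Cardinal.{0}) (p : Unit), p ∈ DominatingIs Unit κ ↔ dNum = κ) := by
  refine ⟨fun I K hK hKI => ⟨⟨⟨Set.univ, MeasurableSet.univ, ?_⟩⟩, not_polarized hK hKI⟩,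
    fun I hI p => ⟨cardinalsPreserved p, dominatingIs p, not_polarized ?_ ?_ p⟩,
    fun K p => unit_polarized, fun κ p => unit_dominatingIs⟩
  · rw [MeasureTheory.measure_univ]
    exact one_ne_zero
  · rw [mk_out]
    exact aleph0_lt_dNum
  · rw [mk_out]
    exact hI.le

end Pool.Agent.Results.MP_95a70f_lc.RandomRealsDestroy
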